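import Mathlib
import Pool.Agent.Lib.MP_2b1ae8_co.GH.Main

set_option autoImplicit false

namespace Pool.Agent.Results.MP_2b1ae8_co.AllHosts

open Pool.Agent.Lib.MP_2b1ae8_co

/-- Asymptotic form of the whole problem: for large `k`, arbitrary trees `T 2, …, T k` (`T i` on
`i` vertices) pack into every finite nonempty graph of minimum degree at least `(1 + ε) k`. -/
theorem result :
    ∀ ε : ℝ, 0 < ε → ∃ k₀ : ℕ, ∀ k : ℕ, k₀ ≤ k →
      ∀ (T : (i : ℕ) → SimpleGraph (Fin i)), (∀ i, 2 ≤ i → i ≤ k → (T i).IsTree) →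
      ∀ (V : Type) [Finite V] [Nonempty V] (G : SimpleGraph V),
        (∀ v : V, (1 + ε) * (k : ℝ) ≤ ((G.neighborSet v).ncard : ℝ)) →
        ∃ f : (i : ℕ) → Fin i → V,
          (∀ i, 2 ≤ i → i ≤ k → Function.Injective (f i) ∧
              ∀ a b : Fin i, (T i).Adj a b → G.Adj (f i a) (f i b)) ∧
          (∀ i j, 2 ≤ i → i ≤ k → 2 ≤ j → j ≤ k → i ≠ j →
              ∀ (a b : Fin i) (c d : Fin j), (T i).Adj a b → (T j).Adj c d →
                s(f i a, f i b) ≠ s(f j c, f j d)) := by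
  intro ε hε
  obtain ⟨u, hu⟩ := exists_nat_gt (1 / ε)
  have u0 : (0 : ℝ) < u := lt_trans (by positivity) hu
  obtain ⟨k0, h⟩ := GH.pack_all u (by exact_mod_cast u0)
  refine ⟨k0, fun k hk T hT V _ _ G hδ => ?_⟩
  classical
  have := Fintype.ofFinite V
  refine h k hk T hT V G fun v => ?_
  have h1 := hδ v
  have h2 : G.neighborSet v = ↑(Finset.univ.filter (G.Adj v)) := by
    ext y; simp
  rw [h2, Set.ncard_coe_finset] at h1
  have h3 : (1 : ℝ) ≤ u * ε := ((div_lt_iff₀ hε).1 hu).le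
  have h4 : (0 : ℝ) ≤ k := Nat.cast_nonneg k
  have h5 : ((u : ℝ) + 1) * k ≤ u * ((Finset.univ.filter (G.Adj v)).card : ℝ) :=
    le_trans (by nlinarith) (mul_le_mul_of_nonneg_left h1 u0.le)
  unfold GH.dg
  exact_mod_cast h5

end Pool.Agent.Results.MP_2b1ae8_co.AllHosts
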