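import Mathlib
import Pool.Agent.Lib.MP_2b1ae8_co.Pack

set_option autoImplicit false

namespace Pool.Agent.Results.MP_2b1ae8_co.TriangleFree

open Pool.Agent.Lib.MP_2b1ae8_co

/-- Any trees `T 2, …, T k` (`T i` on `i` vertices) pack into every finite nonempty
triangle-free graph of minimum degree at least `k - 1`. -/
theorem result :
    ∀ (k : ℕ) (T : (i : ℕ) → SimpleGraph (Fin i)),
      (∀ i, 2 ≤ i → i ≤ k → (T i).IsTree) →
      ∀ (V : Type) [Finite V] [Nonempty V] (G : SimpleGraph V), G.CliqueFree 3 →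
        (∀ v : V, k - 1 ≤ (G.neighborSet v).ncard) →
        ∃ f : (i : ℕ) → Fin i → V,
          (∀ i, 2 ≤ i → i ≤ k → Function.Injective (f i) ∧
              ∀ a b : Fin i, (T i).Adj a b → G.Adj (f i a) (f i b)) ∧
          (∀ i j, 2 ≤ i → i ≤ k → 2 ≤ j → j ≤ k → i ≠ j →
              ∀ (a b : Fin i) (c d : Fin j), (T i).Adj a b → (T j).Adj c d →
                s(f i a, f i b) ≠ s(f j c, f j d)) := by
  intro k T hT V _ _ G hG hdeg
  classical
  have := Fintype.ofFinite V
  have hdeg' : ∀ v, k ≤ (Finset.univ.filter (G.Adj v)).card + 1 := by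
    intro v
    have h1 := hdeg v
    have h2 : G.neighborSet v = ↑(Finset.univ.filter (G.Adj v)) := by
      ext y; simp
    rw [h2, Set.ncard_coe_finset] at h1
    omega
  have htri : ∀ x y z, G.Adj x y → G.Adj y z → ¬ G.Adj x z := by
    intro x y z h1 h2 h3
    exact hG {x, y, z} (SimpleGraph.is3Clique_triple_iff.2 ⟨h1, h3, h2⟩)
  exact pack G k T hT (fun i h1 h2 U hU => step_tri G htri k hdeg' i h1 h2 (T i) (hT i h1 h2) U hU)

end Pool.Agent.Results.MP_2b1ae8_co.TriangleFree
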