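import Mathlib
import Pool.Agent.Lib.MP_2b1ae8_co.TNMain

set_option autoImplicit false

namespace Pool.Agent.Results.MP_2b1ae8_co.TwoNonStars

open Pool.Agent.Lib.MP_2b1ae8_co

/-- If all but at most two of the trees `T 2, …, T k` (`T i` on `i` vertices) are stars, they pack
into every finite nonempty graph of minimum degree at least `k - 1`. -/
theorem result :
    ∀ (k : ℕ) (T : (i : ℕ) → SimpleGraph (Fin i)),
      (∀ i, 2 ≤ i → i ≤ k → (T i).IsTree) →
      (∃ a b : ℕ, ∀ i, 2 ≤ i → i ≤ k → i ≠ a → i ≠ b →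
        ∃ c : Fin i, ∀ v : Fin i, v ≠ c → (T i).Adj c v) →
      ∀ (V : Type) [Finite V] [Nonempty V] (G : SimpleGraph V),
        (∀ v : V, k - 1 ≤ (G.neighborSet v).ncard) →
        ∃ f : (i : ℕ) → Fin i → V,
          (∀ i, 2 ≤ i → i ≤ k → Function.Injective (f i) ∧
              ∀ a b : Fin i, (T i).Adj a b → G.Adj (f i a) (f i b)) ∧
          (∀ i j, 2 ≤ i → i ≤ k → 2 ≤ j → j ≤ k → i ≠ j →
              ∀ (a b : Fin i) (c d : Fin j), (T i).Adj a b → (T j).Adj c d →
                s(f i a, f i b) ≠ s(f j c, f j d)) := by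
  intro k T hT hs V _ _ G hdeg
  classical
  obtain ⟨a, b, hs⟩ := hs
  have := Fintype.ofFinite V
  refine TN.main k T (fun i h1 h2 => TN.tr_of_isTree _ (hT i h1 h2)) a b hs V G (fun v => ?_)
  have h1 := hdeg v
  have h2 : G.neighborSet v = ↑(Finset.univ.filter (G.Adj v)) := by
    ext y; simp
  rw [h2, Set.ncard_coe_finset] at h1
  exact h1

end Pool.Agent.Results.MP_2b1ae8_co.TwoNonStars
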